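import Pool.Agent.TH279.GR.Defs

/-!
# Bihomogeneous ideals: sums, principal ideals, colon ideals (job GR-G0b for helper279)
-/

set_option autoImplicit false

open MvPolynomial Module Filter Topology

namespace Pool.Agent.TH279.GR

variable {a b : ℕ}

namespace G0bAux

/-- the component of a product with a form, in bidegrees that are large enough -/
theorem comp_mul_add {x : Co a b} {c e : ℕ} (hx : x ∈ bh a b c e) (g : Co a b) (m : ℕ × ℕ) :
    weightedHomogeneousComponent (wt a b) ((c, e) + m) (x * g) =
      x * weightedHomogeneousComponent (wt a b) m g := by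
  classical
  let _ : GradedAlgebra (weightedHomogeneousSubmodule ℂ (wt a b)) :=
    weightedGradedAlgebra ℂ (wt a b)
  have h := DirectSum.coe_decompose_mul_add_of_left_mem
    (weightedHomogeneousSubmodule ℂ (wt a b)) (j := m) (b := g) hx
  simp only [← weightedDecomposition.decompose'_apply]
  exact h

/-- the component of a product with a form, in other bidegrees -/
theorem comp_mul_zero {x : Co a b} {c e : ℕ} (hx : x ∈ bh a b c e) (g : Co a b) {m : ℕ × ℕ}
    (hm : ¬ (c, e) ≤ m) : weightedHomogeneousComponent (wt a b) m (x * g) = 0 := by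
  classical
  let _ : GradedAlgebra (weightedHomogeneousSubmodule ℂ (wt a b)) :=
    weightedGradedAlgebra ℂ (wt a b)
  have h := DirectSum.coe_decompose_mul_of_left_mem_of_not_le
    (weightedHomogeneousSubmodule ℂ (wt a b)) (b := g) hx hm
  simp only [← weightedDecomposition.decompose'_apply]
  exact h

end G0bAux

theorem BHom.sup {I J : Ideal (Co a b)} (hI : BHom I) (hJ : BHom J) : BHom (I ⊔ J) := by
  intro f hf m
  obtain ⟨i, hi, j, hj, rfl⟩ := Submodule.mem_sup.1 hf
  rw [map_add]
  exact Submodule.add_mem_sup (hI i hi m) (hJ j hj m)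

theorem BHom.span {x : Co a b} {c e : ℕ} (hx : x ∈ bh a b c e) : BHom (Ideal.span {x}) := by
  intro f hf m
  rw [Ideal.mem_span_singleton] at hf ⊢
  obtain ⟨g, rfl⟩ := hf
  by_cases hm : (c, e) ≤ m
  · obtain ⟨m', rfl⟩ := exists_add_of_le hm
    rw [G0bAux.comp_mul_add hx]
    exact Dvd.intro _ rfl
  · rw [G0bAux.comp_mul_zero hx g hm]
    exact dvd_zero _

theorem BHom.col {N : Ideal (Co a b)} (hN : BHom N) {x : Co a b} {c e : ℕ}
    (hx : x ∈ bh a b c e) : BHom (col N x) := by
  intro f hf m
  rw [mem_col] at hf ⊢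
  rw [← G0bAux.comp_mul_add hx]
  exact hN _ hf _

end Pool.Agent.TH279.GR
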